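import Mathlib
import Pool.Agent.R467.PS.Final

/-!
# Another square among the sums `p_n + ... + p_{2n}`

`a(111008771) = 622112686 ^ 2`, where `p_n = 2274652151` and `p_{2n} = 4711447171`. The values of the
prime counting function and of the sum of primes at these two primes are computed by the kernel: a
sieve by the primes up to `1669` on bit blocks of length `2 ^ 18`, and the products of two larger
primes are removed (Legendre - Meissel). See `Pool/Agent/R467/PS`.
-/

set_option autoImplicit false

namespace Pool.Agent.Results.MP_dcd7a9_nt.NewSquare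

/-- `p k` is the `k`-th prime, `p 1 = 2`, `p 2 = 3`, ... -/
noncomputable def p (k : ℕ) : ℕ := Nat.nth Nat.Prime (k - 1)

/-- `a n = p n + p (n + 1) + ... + p (2 * n)`. -/
noncomputable def a (n : ℕ) : ℕ := ∑ k ∈ Finset.Icc n (2 * n), p k

/-- `a 111008771` is the square of `622112686`; so it is not true that `a n` (`n ≥ 1`) is a square
only for `n = 3, 6, 4072`. -/
theorem result : a 111008771 = 622112686 ^ 2 ∧
    ¬ ∀ n : ℕ, 1 ≤ n → (IsSquare (a n) ↔ n = 3 ∨ n = 6 ∨ n = 4072) := by
  have h : a 111008771 = 622112686 ^ 2 := by
    have h1 : (622112686 : ℕ) ^ 2 = 387024194082134596 := by norm_num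
    have h2 : 2 * 111008771 = 222017542 := by norm_num
    rw [h1]
    unfold a p
    rw [h2]
    exact R467.PS.the_sum
  refine ⟨h, fun H => ?_⟩
  have h1 := (H 111008771 (by norm_num)).mp ⟨622112686, by rw [h, sq]⟩
  omega

end Pool.Agent.Results.MP_dcd7a9_nt.NewSquare
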